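import Pool.Agent.H28.RC.Basic

/-!
# Hecke L-functions of ray class characters: the Gauss sums are proportional to the coefficients
of the conjugate character (CI)
-/

set_option autoImplicit false

open NumberField Set Filter Complex
open scoped nonZeroDivisors

namespace Pool.Agent.H69.RC

open Pool.Agent.H28.RC Pool.Agent.H25.HK Pool.Agent.H25

section
variable {K : Type} [Field K] [NumberField K]

/-- a principal fractional ideal -/
noncomputable abbrev sp (t : K) : FI K := FractionalIdeal.spanSingleton (𝓞 K)⁰ t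

theorem fzero (M : FI K) : (0 : K) ∈ M := (M : Submodule (𝓞 K) K).zero_mem

theorem fadd {M : FI K} {x y : K} (hx : x ∈ M) (hy : y ∈ M) : x + y ∈ M :=
  (M : Submodule (𝓞 K) K).add_mem hx hy

theorem fsub {M : FI K} {x y : K} (hx : x ∈ M) (hy : y ∈ M) : x - y ∈ M :=
  (M : Submodule (𝓞 K) K).sub_mem hx hy

/-- the additive character -/
noncomputable def ex (x : K) : ℂ := cexp (2 * Real.pi * I * ((Algebra.trace ℚ K x : ℚ) : ℂ))

theorem ft_eq (X : Finset K) (c : K → ℂ) (y : K) : ft K X c y = ∑ r ∈ X, c r * ex (r * y) := rfl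

theorem ex_add {L : FI K} (hL : L ≠ 0) {l y : K} (r : K) (hl : l ∈ L) (hy : y ∈ du K L) :
    ex ((r + l) * y) = ex (r * y) := by
  have h1 : ∃ n : ℤ, Algebra.trace ℚ K (l * y) = n := by
    have h2 := (FractionalIdeal.mem_dual (A := ℤ) (K := ℚ) hL).1 hy l hl
    obtain ⟨n, hn⟩ := h2
    refine ⟨n, ?_⟩
    rw [Algebra.traceForm_apply] at hn
    rw [mul_comm, ← hn]
    simp
  obtain ⟨n, hn⟩ := h1
  unfold ex
  rw [add_mul, map_add, hn]
  have h3 : (2 * Real.pi * I * ((((Algebra.trace ℚ K (r * y) : ℚ) + (n : ℚ) : ℚ)) : ℂ)) =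
      2 * Real.pi * I * ((Algebra.trace ℚ K (r * y) : ℚ) : ℂ) + n * (2 * Real.pi * I) := by
    push_cast
    ring
  rw [h3, Complex.exp_add, Complex.exp_int_mul_two_pi_mul_I, mul_one]

/-- the sums do not depend on the representatives -/
theorem ft_rep {f : Ideal (𝓞 K)} {M : FI K} (hfM : (f : FI K) * M ≠ 0) {X X' : Finset K}
    (hX : Rep K f M X) (hX' : Rep K f M X') (c : K → ℂ)
    (hc : ∀ x ∈ M, ∀ l ∈ (f : FI K) * M, c (x + l) = c x) {y : K}
    (hy : y ∈ du K ((f : FI K) * M)) : ft K X c y = ft K X' c y := by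
  rw [ft_eq, ft_eq]
  have hch : ∀ r ∈ X, ∃ r', r' ∈ X' ∧ r - r' ∈ (f : FI K) * M := fun r hr =>
    (hX'.2 r (hX.1 r hr)).exists
  choose! i hi hi' using hch
  refine Finset.sum_bij (fun r _ => i r) (fun r hr => hi r hr) ?_ ?_ ?_
  · intro r1 h1 r2 h2 h12
    refine (hX.2 r1 (hX.1 r1 h1)).unique ⟨h1, ?_⟩ ⟨h2, ?_⟩
    · rw [sub_self]
      exact fzero _
    · have h3 := fsub (hi' r1 h1) (hi' r2 h2)
      have h4 : r1 - i r1 - (r2 - i r2) = r1 - r2 := by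
        have h5 : i r1 = i r2 := h12
        rw [h5]
        ring
      rwa [h4] at h3
  · intro r' hr'
    obtain ⟨r, ⟨hr, hr2⟩, -⟩ := hX.2 r' (hX'.1 r' hr')
    refine ⟨r, hr, ?_⟩
    refine (hX'.2 r' (hX'.1 r' hr')).unique ⟨hi r hr, ?_⟩ ⟨hr', ?_⟩
    · have h3 := fadd hr2 (hi' r hr)
      have h4 : r' - r + (r - i r) = r' - i r := by ring
      rwa [h4] at h3
    · rw [sub_self]
      exact fzero _
  · intro r hr
    have h1 : r = i r + (r - i r) := by ring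
    have h2 := hc (i r) (hX'.1 _ (hi r hr)) _ (hi' r hr)
    have h3 := ex_add hfM (i r) (hi' r hr) hy
    rw [← h1] at h2 h3
    rw [h2, h3]

open Classical in
/-- the Gauss sum -/
noncomputable def FT (χ : RCC K) (M : FI K) (y : K) : ℂ :=
  if h : ∃ X, Rep K χ.f M X then ft K h.choose (cf χ M) y else 0

/-- the quotient -/
noncomputable def WW (χ : RCC K) (M : FI K) (y : K) : ℂ := FT χ M y / cf χ.bar (du' χ M) y

theorem f_ne (χ : RCC K) : ((χ.f : Ideal (𝓞 K)) : FI K) ≠ 0 :=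
  FractionalIdeal.coeIdeal_ne_zero.2 χ.f_ne

theorem fM_ne (χ : RCC K) {M : FI K} (hM : M ≠ 0) : (χ.f : FI K) * M ≠ 0 :=
  mul_ne_zero (f_ne χ) hM

theorem FT_eq (hCP : T_CP) (χ : RCC K) {M : FI K} (hM : M ≠ 0) {X : Finset K}
    (hX : Rep K χ.f M X) {y : K} (hy : y ∈ du' χ M) : ft K X (cf χ M) y = FT χ M y := by
  have h : ∃ X, Rep K χ.f M X := ⟨X, hX⟩
  unfold FT
  rw [dif_pos h]
  exact ft_rep (fM_ne χ hM) hX h.choose_spec _ (hCP K χ M hM) hy

theorem sub_mem' (hID : T_ID) {J : Ideal (𝓞 K)} (hJ : J ≠ ⊥) {M : FI K} (hM : M ≠ 0) {x : K}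
    (hx : x ∈ (J : FI K) * M) : x ∈ M := ((hID K M hM).2.2.2.2.1 J hJ x hx).1

/-- the coefficient at zero -/
theorem cf_zero (hID : T_ID) (hCM : T_CM) (hCP : T_CP) (χ : RCC K) {M : FI K} (hM : M ≠ 0) :
    cf χ M 0 = cf χ M (z0 χ M) ∧ z0 χ M ≠ 0 ∧ z0 χ M ∈ (χ.f : FI K) * M ∧ z0 χ M ∈ M := by
  obtain ⟨-, -, -, -, -, -, -, h8, h9⟩ := hCM K χ M hM
  refine ⟨?_, h8, h9, sub_mem' hID χ.f_ne hM h9⟩
  have h := hCP K χ M hM 0 (fzero _) _ h9
  rw [zero_add] at h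
  exact h.symm

theorem cf_scale (hID : T_ID) (hCM : T_CM) (hCP : T_CP) (χ : RCC K) {M : FI K} (hM : M ≠ 0)
    {t : K} (ht : t ≠ 0) {x : K} (hx : x ∈ M) :
    cf χ (sp t * M) (t * x) = sg K χ.S t * cf χ M x := by
  have hspt : sp t ≠ 0 := FractionalIdeal.spanSingleton_ne_zero_iff.2 ht
  have hne : ∀ x ∈ M, x ≠ 0 → cf χ (sp t * M) (t * x) = sg K χ.S t * cf χ M x := by
    intro x hx hx0
    unfold cf
    rw [if_neg (mul_ne_zero ht hx0), if_neg hx0, (hID K M hM).2.2.2.2.2.2 t ht x hx,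
      sg_mul _ ht hx0]
    ring
  by_cases hx0 : x = 0
  · subst hx0
    obtain ⟨h1, h2, h3, h4⟩ := cf_zero hID hCM hCP χ hM
    rw [h1, ← hne _ h4 h2, mul_zero]
    have h5 : t * z0 χ M ∈ (χ.f : FI K) * (sp t * M) := by
      rw [mul_left_comm]
      exact FractionalIdeal.mul_mem_mul (FractionalIdeal.mem_spanSingleton_self _ t) h3
    have h6 := hCP K χ (sp t * M) (mul_ne_zero hspt hM) 0 (fzero _) _ h5
    rw [zero_add] at h6
    exact h6.symm
  · exact hne x hx hx0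

theorem cf_J (hID : T_ID) (hCM : T_CM) (hCP : T_CP) (χ : RCC K) {M : FI K} (hM : M ≠ 0)
    {J : Ideal (𝓞 K)} (hJ : J ≠ ⊥) {x : K} (hx : x ∈ (J : FI K) * M) :
    cf χ M x = χ.ψ J * cf χ ((J : FI K) * M) x := by
  have hJM : (J : FI K) * M ≠ 0 := mul_ne_zero (FractionalIdeal.coeIdeal_ne_zero.2 hJ) hM
  have hne : ∀ x ∈ (J : FI K) * M, x ≠ 0 → cf χ M x = χ.ψ J * cf χ ((J : FI K) * M) x := by
    intro x hx hx0
    unfold cf
    rw [if_neg hx0, if_neg hx0, ((hID K M hM).2.2.2.2.1 J hJ x hx).2, χ.map_mul]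
    ring
  by_cases hx0 : x = 0
  · subst hx0
    obtain ⟨h1, h2, h3, h4⟩ := cf_zero hID hCM hCP χ hJM
    rw [h1, ← hne _ h4 h2]
    have h5 : z0 χ ((J : FI K) * M) ∈ (χ.f : FI K) * M := by
      rw [mul_left_comm] at h3
      exact sub_mem' hID hJ (fM_ne χ hM) h3
    have h6 := hCP K χ M hM 0 (fzero _) _ h5
    rw [zero_add] at h6
    exact h6.symm
  · exact hne x hx hx0

theorem du_eq (hDU : T_DU) (χ : RCC K) {M : FI K} (hM : M ≠ 0) :
    du' χ M = ((χ.f : FI K) * M)⁻¹ * du K 1 := (hDU K _ (fM_ne χ hM)).2.2.1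

theorem du_ne (hDU : T_DU) (χ : RCC K) {M : FI K} (hM : M ≠ 0) : du' χ M ≠ 0 :=
  (hDU K _ (fM_ne χ hM)).1

theorem du_scale (hDU : T_DU) (χ : RCC K) {M : FI K} (hM : M ≠ 0) {t : K} (ht : t ≠ 0) :
    du' χ (sp t * M) = sp t⁻¹ * du' χ M := by
  have hspt : sp t ≠ 0 := FractionalIdeal.spanSingleton_ne_zero_iff.2 ht
  have h : sp t⁻¹ = (sp t)⁻¹ := (FractionalIdeal.spanSingleton_inv (R₁ := 𝓞 K) (K := K) t).symm
  rw [du_eq hDU χ (mul_ne_zero hspt hM), du_eq hDU χ hM, h,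
    mul_left_comm, mul_inv (sp t), mul_assoc]

theorem du_J (hDU : T_DU) (χ : RCC K) {M : FI K} (hM : M ≠ 0) {J : Ideal (𝓞 K)} (hJ : J ≠ ⊥) :
    (J : FI K) * du' χ ((J : FI K) * M) = du' χ M := by
  have hJ' : (J : FI K) ≠ 0 := FractionalIdeal.coeIdeal_ne_zero.2 hJ
  rw [du_eq hDU χ (mul_ne_zero hJ' hM), du_eq hDU χ hM, mul_left_comm (χ.f : FI K), mul_inv (J : FI K),
    ← mul_assoc, ← mul_assoc, mul_inv_cancel₀ hJ', one_mul]

theorem rep_scale {f : Ideal (𝓞 K)} {M : FI K} {X : Finset K} (hX : Rep K f M X) {t : K}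
    (ht : t ≠ 0) [DecidableEq K] : Rep K f (sp t * M) (X.image (t * ·)) := by
  constructor
  · intro r hr
    obtain ⟨r0, hr0, rfl⟩ := Finset.mem_image.1 hr
    exact FractionalIdeal.mul_mem_mul (FractionalIdeal.mem_spanSingleton_self _ t) (hX.1 r0 hr0)
  · intro x hx
    obtain ⟨x0, hx0, rfl⟩ := FractionalIdeal.mem_singleton_mul.1 hx
    obtain ⟨r, ⟨hr, hr2⟩, hu⟩ := hX.2 x0 hx0
    refine ⟨t * r, ⟨Finset.mem_image.2 ⟨r, hr, rfl⟩, ?_⟩, ?_⟩
    · rw [mul_left_comm, ← mul_sub]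
      exact FractionalIdeal.mul_mem_mul (FractionalIdeal.mem_spanSingleton_self _ t) hr2
    · rintro r' ⟨hr', hr2'⟩
      obtain ⟨r0, hr0, rfl⟩ := Finset.mem_image.1 hr'
      have h1 : x0 - r0 ∈ (f : FI K) * M := by
        rw [mul_left_comm, ← mul_sub] at hr2'
        obtain ⟨z, hz, hz2⟩ := FractionalIdeal.mem_singleton_mul.1 hr2'
        rw [mul_left_cancel₀ ht hz2]
        exact hz
      rw [hu r0 ⟨hr0, h1⟩]

theorem rep_J {f J : Ideal (𝓞 K)} (hJf : J ⊔ f = ⊤) (hID : T_ID) (hf : f ≠ ⊥) (hJ : J ≠ ⊥)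
    {M : FI K} (hM : M ≠ 0) {X : Finset K} (hX : Rep K f ((J : FI K) * M) X) : Rep K f M X := by
  have hfM : (f : FI K) * M ≠ 0 := mul_ne_zero (FractionalIdeal.coeIdeal_ne_zero.2 hf) hM
  have hJM : (J : FI K) * M ≠ 0 := mul_ne_zero (FractionalIdeal.coeIdeal_ne_zero.2 hJ) hM
  have h1 : (1 : 𝓞 K) ∈ J ⊔ f := by rw [hJf]; exact Submodule.mem_top
  obtain ⟨j, hj, φ, hφ, hjφ⟩ := Submodule.mem_sup.1 h1
  have hsum : ∀ x : K, x = (j : K) * x + (φ : K) * x := by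
    intro x
    have h2 : ((j : K) + (φ : K)) = 1 := by
      have := congrArg (algebraMap (𝓞 K) K) hjφ
      rw [map_add, map_one] at this
      exact this
    rw [← add_mul, h2, one_mul]
  have hjm : ∀ {L : FI K} {x : K}, x ∈ L → (j : K) * x ∈ (J : FI K) * L := fun hx =>
    FractionalIdeal.mul_mem_mul (FractionalIdeal.mem_coeIdeal_of_mem _ hj) hx
  have hφm : ∀ {L : FI K} {x : K}, x ∈ L → (φ : K) * x ∈ (f : FI K) * L := fun hx =>
    FractionalIdeal.mul_mem_mul (FractionalIdeal.mem_coeIdeal_of_mem _ hφ) hx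
  constructor
  · intro r hr
    exact sub_mem' hID hJ hM (hX.1 r hr)
  · intro x hx
    obtain ⟨r, ⟨hr, hr2⟩, -⟩ := hX.2 ((j : K) * x) (hjm hx)
    refine ⟨r, ⟨hr, ?_⟩, ?_⟩
    · have h3 : (j : K) * x - r ∈ (f : FI K) * M := by
        rw [mul_left_comm] at hr2
        exact sub_mem' hID hJ hfM hr2
      have h4 := fadd h3 (hφm hx)
      have h5 : (j : K) * x - r + (φ : K) * x = x - r := by
        have := hsum x
        linear_combination -this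
      rwa [h5] at h4
    · rintro r' ⟨hr', hr2'⟩
      -- `r' - r` lies in both
      have h3 : (j : K) * x - r ∈ (f : FI K) * M := by
        rw [mul_left_comm] at hr2
        exact sub_mem' hID hJ hfM hr2
      have h4 := fsub (fadd h3 (hφm hx)) hr2'
      have h5 : (j : K) * x - r + (φ : K) * x - (x - r') = r' - r := by
        have := hsum x
        linear_combination -this
      rw [h5] at h4
      have h6 : r' - r ∈ (J : FI K) * M := fsub (hX.1 r' hr') (hX.1 r hr)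
      have h7 : r' - r ∈ (f : FI K) * ((J : FI K) * M) := by
        rw [hsum (r' - r)]
        refine fadd ?_ (hφm h6)
        rw [mul_left_comm]
        exact hjm h4
      refine (hX.2 r' (hX.1 r' hr')).unique ⟨hr', ?_⟩ ⟨hr, h7⟩
      rw [sub_self]
      exact fzero _

theorem W_scale (hID : T_ID) (hCM : T_CM) (hCP : T_CP) (hDU : T_DU) (hRX : T_RX) (χ : RCC K)
    {M : FI K} (hM : M ≠ 0) {t : K} (ht : t ≠ 0) {y : K} (hy : y ∈ du' χ M) :
    t⁻¹ * y ∈ du' χ (sp t * M) ∧ WW χ (sp t * M) (t⁻¹ * y) = WW χ M y := by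
  classical
  have hspt : sp t ≠ 0 := FractionalIdeal.spanSingleton_ne_zero_iff.2 ht
  have hy' : t⁻¹ * y ∈ du' χ (sp t * M) := by
    rw [du_scale hDU χ hM ht]
    exact FractionalIdeal.mul_mem_mul (FractionalIdeal.mem_spanSingleton_self _ t⁻¹) hy
  refine ⟨hy', ?_⟩
  obtain ⟨X, hX, -⟩ := hRX K χ.f M χ.f_ne hM
  have h1 : FT χ (sp t * M) (t⁻¹ * y) = sg K χ.S t * FT χ M y := by
    rw [← FT_eq hCP χ hM hX hy, ← FT_eq hCP χ (mul_ne_zero hspt hM) (rep_scale hX ht) hy', ft_eq,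
      ft_eq, Finset.sum_image (fun a _ b _ h => mul_left_cancel₀ ht h), Finset.mul_sum]
    refine Finset.sum_congr rfl fun r hr => ?_
    rw [cf_scale hID hCM hCP χ hM ht (hX.1 r hr)]
    have h2 : t * r * (t⁻¹ * y) = r * y := by
      field_simp
    rw [h2]
    ring
  have h2 : cf χ.bar (du' χ (sp t * M)) (t⁻¹ * y) = sg K χ.S t * cf χ.bar (du' χ M) y := by
    rw [du_scale hDU χ hM ht,
      cf_scale hID hCM hCP χ.bar (du_ne hDU χ hM) (inv_ne_zero ht) hy]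
    have h3 : sg K χ.S t⁻¹ = sg K χ.S t := by
      have h4 : sg K χ.S t * sg K χ.S t⁻¹ = 1 := by
        rw [← sg_mul _ ht (inv_ne_zero ht), mul_inv_cancel₀ ht, sg_one]
      have h5 := sg_sq χ.S t
      exact mul_left_cancel₀ (sg_ne χ.S t) (h4.trans h5.symm)
    show sg K χ.S t⁻¹ * _ = _
    rw [h3]
  unfold WW
  rw [h1, h2, mul_div_mul_left _ _ (sg_ne χ.S t)]

theorem W_J (hID : T_ID) (hCM : T_CM) (hCP : T_CP) (hDU : T_DU) (hRX : T_RX) (χ : RCC K)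
    {M : FI K} (hM : M ≠ 0) {J : Ideal (𝓞 K)} (hJ : J ≠ ⊥) (hJf : J ⊔ χ.f = ⊤) {y : K}
    (hy : y ∈ du' χ M) : WW χ ((J : FI K) * M) y = WW χ M y := by
  have hJM : (J : FI K) * M ≠ 0 := mul_ne_zero (FractionalIdeal.coeIdeal_ne_zero.2 hJ) hM
  obtain ⟨X, hX, -⟩ := hRX K χ.f _ χ.f_ne hJM
  have hX' := rep_J hJf hID χ.f_ne hJ hM hX
  have hy0 : y ∈ (J : FI K) * du' χ ((J : FI K) * M) := by rw [du_J hDU χ hM hJ]; exact hy
  have hy' : y ∈ du' χ ((J : FI K) * M) := sub_mem' hID hJ (du_ne hDU χ hJM) hy0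
  have h1 : FT χ M y = χ.ψ J * FT χ ((J : FI K) * M) y := by
    rw [← FT_eq hCP χ hM hX' hy, ← FT_eq hCP χ hJM hX hy', ft_eq, ft_eq, Finset.mul_sum]
    refine Finset.sum_congr rfl fun r hr => ?_
    rw [cf_J hID hCM hCP χ hM hJ (hX.1 r hr)]
    ring
  have h2 : cf χ.bar (du' χ ((J : FI K) * M)) y =
      (starRingEnd ℂ) (χ.ψ J) * cf χ.bar (du' χ M) y := by
    have h3 := cf_J hID hCM hCP χ.bar (du_ne hDU χ hJM) hJ hy0
    rw [h3, du_J hDU χ hM hJ]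
    rfl
  have hn : ‖χ.ψ J‖ = 1 := χ.norm_one J hJ hJf
  have h3 : (starRingEnd ℂ) (χ.ψ J) * χ.ψ J = 1 := by
    rw [Complex.conj_mul', hn]
    simp
  have h4 : χ.ψ J ≠ 0 := by
    intro h
    rw [h, norm_zero] at hn
    exact zero_ne_one hn
  have h5 : (starRingEnd ℂ) (χ.ψ J) = (χ.ψ J)⁻¹ := eq_inv_of_mul_eq_one_left h3
  unfold WW
  rw [h1, h2, h5, mul_comm (χ.ψ J)⁻¹, ← div_div, div_inv_eq_mul]
  ring

end

theorem pf_CI : T_ID → T_CM → T_CP → T_DU → T_RX → T_CI := by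
  intro hID hCM hCP hDU hRX K _ _ χ M N X Y hM hN hX hY y hy z hz hy0 hz0 hyf hzf
  have hM' := du_ne hDU χ hM
  have hN' := du_ne hDU χ hN
  -- nonvanishing
  have hGM : cf χ.bar (du' χ M) y ≠ 0 := by
    have h := (hCM K χ.bar (du' χ M) hM').2.2.2.1 y hy hy0 hyf
    intro h0
    rw [h0, norm_zero] at h
    exact zero_ne_one h
  have hGN : cf χ.bar (du' χ N) z ≠ 0 := by
    have h := (hCM K χ.bar (du' χ N) hN').2.2.2.1 z hz hz0 hzf
    intro h0
    rw [h0, norm_zero] at h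
    exact zero_ne_one h
  -- the two ideals
  obtain ⟨J1, hJ1⟩ : ∃ J1, J1 = idl K (du' χ M) y := ⟨_, rfl⟩
  obtain ⟨J2, hJ2⟩ : ∃ J2, J2 = idl K (du' χ N) z := ⟨_, rfl⟩
  have hJ1e : (J1 : FI K) * du' χ M = sp y := by
    rw [hJ1]
    exact (hID K _ hM').1 y hy
  have hJ2e : (J2 : FI K) * du' χ N = sp z := by
    rw [hJ2]
    exact (hID K _ hN').1 z hz
  have hJ1b : J1 ≠ ⊥ := by
    rw [hJ1, Ne, (hID K _ hM').2.2.2.1 y hy]
    exact hy0
  have hJ2b : J2 ≠ ⊥ := by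
    rw [hJ2, Ne, (hID K _ hN').2.2.2.1 z hz]
    exact hz0
  have hspy : sp y ≠ 0 := FractionalIdeal.spanSingleton_ne_zero_iff.2 hy0
  have hspz : sp z ≠ 0 := FractionalIdeal.spanSingleton_ne_zero_iff.2 hz0
  have hD1 : (J1 : FI K) * du K 1 = sp y * ((χ.f : FI K) * M) := by
    rw [← hJ1e, du_eq hDU χ hM, mul_assoc, mul_right_comm ((χ.f : FI K) * M)⁻¹,
      inv_mul_cancel₀ (fM_ne χ hM), one_mul]
  have hD2 : (J2 : FI K) * du K 1 = sp z * ((χ.f : FI K) * N) := by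
    rw [← hJ2e, du_eq hDU χ hN, mul_assoc, mul_right_comm ((χ.f : FI K) * N)⁻¹,
      inv_mul_cancel₀ (fM_ne χ hN), one_mul]
  have hkey : (J2 : FI K) * (sp y * M) = (J1 : FI K) * (sp z * N) := by
    refine mul_left_cancel₀ (f_ne χ) ?_
    calc (χ.f : FI K) * ((J2 : FI K) * (sp y * M)) =
          (J2 : FI K) * (sp y * ((χ.f : FI K) * M)) := by ring
      _ = (J1 : FI K) * (sp z * ((χ.f : FI K) * N)) := by rw [← hD1, ← hD2]; ring
      _ = _ := by ring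
  obtain ⟨hy1, hWy⟩ := W_scale hID hCM hCP hDU hRX χ hM hy0 hy
  obtain ⟨hz1, hWz⟩ := W_scale hID hCM hCP hDU hRX χ hN hz0 hz
  rw [inv_mul_cancel₀ hy0] at hy1 hWy
  rw [inv_mul_cancel₀ hz0] at hz1 hWz
  have h1 := W_J hID hCM hCP hDU hRX χ (mul_ne_zero hspy hM) hJ2b (hJ2 ▸ hzf) hy1
  have h2 := W_J hID hCM hCP hDU hRX χ (mul_ne_zero hspz hN) hJ1b (hJ1 ▸ hyf) hz1
  rw [hkey] at h1
  have hW : WW χ M y = WW χ N z := by
    rw [← hWy, ← hWz, ← h1, ← h2]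
  unfold WW at hW
  rw [FT_eq hCP χ hM hX hy, FT_eq hCP χ hN hY hz]
  rwa [div_eq_div_iff hGM hGN] at hW

end Pool.Agent.H69.RC
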