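import Pool.Agent.H28.RC.Targets2
import Pool.Agent.H25.HK.AA
import Pool.Agent.H11.HK.AE
import Pool.Agent.H11.HK.RT
import Pool.Agent.H48.DL.AH

/-!
# (FIN) every Artin L-function over the rationals as an `LF`
-/

set_option autoImplicit false

open NumberField NumberField.InfinitePlace Complex Filter

namespace Pool.Agent.H69.RC

open Pool.Agent.H28.RC Pool.Agent.H25.HK Pool.Agent.H25

/-- the even factor -/
noncomputable def Pf (s : ℂ) : ℂ := Gammaℂ s * Complex.cos (Real.pi * s / 2)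

/-- the odd factor -/
noncomputable def Qf (s : ℂ) : ℂ := Gammaℂ s * Complex.sin (Real.pi * s / 2)

theorem factor (s : ℂ) (κ : ℝ) (hκ : κ = 0 ∨ κ = 1) :
    Gammaℂ s * Complex.cos (Real.pi * (s - κ) / 2) = if κ = 0 then Pf s else Qf s := by
  rcases hκ with h | h
  · rw [if_pos h, h]
    unfold Pf
    simp
  · rw [if_neg (by rw [h]; exact one_ne_zero), h]
    unfold Qf
    congr 1
    rw [← Complex.cos_sub_pi_div_two]
    congr 1
    push_cast
    ring

/-- the Gamma factors of an `LF` -/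
theorem gam (L : DL.LF) (s : ℂ) :
    ∏ j, Gammaℂ s * Complex.cos (Real.pi * (s - L.κ j) / 2) =
      Pf s ^ Nat.card {j : Fin L.n // L.κ j = 0} * Qf s ^ Nat.card {j : Fin L.n // L.κ j = 1} := by
  classical
  rw [Finset.prod_congr rfl fun j _ => factor s (L.κ j) (L.κ_mem j), Finset.prod_ite,
    Finset.prod_const, Finset.prod_const]
  congr 2
  · rw [Nat.card_eq_fintype_card, Fintype.card_subtype]
  · rw [Nat.card_eq_fintype_card, Fintype.card_subtype]
    congr 1
    ext j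
    simp only [Finset.mem_filter, Finset.mem_univ, true_and]
    constructor
    · intro h
      exact (L.κ_mem j).resolve_left h
    · intro h h0
      rw [h] at h0
      exact one_ne_zero h0

theorem conj_num (L : DL.LF) (hden : L.den = fun _ => 1) {s : ℂ} (hs : 0 < s.im) :
    (starRingEnd ℂ) (L.num (1 - (starRingEnd ℂ) s)) = L.num s * L.y s := by
  have h := L.fe s hs
  rw [hden] at h
  simp only [map_one, mul_one] at h
  exact h.symm

theorem int_split (a : ℤ) : a + ((-a).toNat : ℤ) = (a.toNat : ℤ) := by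
  rcases le_total 0 a with h4 | h4
  · rw [Int.toNat_of_nonneg h4, Int.toNat_of_nonpos (by omega)]; simp
  · rw [Int.toNat_of_nonneg (by omega : 0 ≤ -a), Int.toNat_of_nonpos h4]; simp

section family

variable {N : ℕ} (L : Fin N → DL.LF) (n : Fin N → ℤ)

theorem nat_split (x : Fin N → ℕ) (a : ℕ) (hx : (a : ℤ) = ∑ i, n i * (x i : ℤ)) :
    a + ∑ i, (-n i).toNat * x i = ∑ i, (n i).toNat * x i := by
  have h2 : ((a + ∑ i, (-n i).toNat * x i : ℕ) : ℤ) = ((∑ i, (n i).toNat * x i : ℕ) : ℤ) := by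
    push_cast
    rw [hx, ← Finset.sum_add_distrib]
    refine Finset.sum_congr rfl fun i _ => ?_
    rw [← add_mul, int_split]
  exact_mod_cast h2

/-- products of powers of the factors of the functional equations -/
theorem prod_y (c0 c1 : Fin N → ℕ) (h0 : ∀ i, Nat.card {j : Fin (L i).n // (L i).κ j = 0} = c0 i)
    (h1 : ∀ i, Nat.card {j : Fin (L i).n // (L i).κ j = 1} = c1 i) (x : Fin N → ℕ) (s : ℂ) :
    ∏ i, (L i).y s ^ x i = (∏ i, (L i).ε ^ x i) *
      cexp ((s - 1 / 2) * ((∑ i, (x i : ℝ) * Real.log (L i).A : ℝ) : ℂ)) *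
      Pf s ^ (∑ i, x i * c0 i) * Qf s ^ (∑ i, x i * c1 i) := by
  rw [← Finset.prod_pow_eq_pow_sum, ← Finset.prod_pow_eq_pow_sum]
  push_cast
  rw [Finset.mul_sum, Complex.exp_sum, ← Finset.prod_mul_distrib, ← Finset.prod_mul_distrib,
    ← Finset.prod_mul_distrib]
  refine Finset.prod_congr rfl fun i _ => ?_
  unfold DL.LF.y
  rw [gam, h0, h1]
  have t1 : cexp ((s - 1 / 2) * (Real.log (L i).A : ℂ)) ^ x i =
      cexp ((s - 1 / 2) * ((x i : ℂ) * (Real.log (L i).A : ℂ))) := by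
    rw [← Complex.exp_nat_mul]
    congr 1
    ring
  rw [mul_pow, mul_pow, mul_pow, t1, ← pow_mul, ← pow_mul, mul_comm (x i), mul_comm (x i)]
  ring

/-- the factor of the functional equation of the quotient -/
theorem yy (c0 c1 : Fin N → ℕ) (h0 : ∀ i, Nat.card {j : Fin (L i).n // (L i).κ j = 0} = c0 i)
    (h1 : ∀ i, Nat.card {j : Fin (L i).n // (L i).κ j = 1} = c1 i) (a0 b0 : ℕ)
    (ha : (a0 : ℤ) = ∑ i, n i * (c0 i : ℤ)) (hb : (b0 : ℤ) = ∑ i, n i * (c1 i : ℤ)) (s : ℂ) :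
    ((∏ i, (L i).ε ^ n i) * cexp ((s - 1 / 2) * ((∑ i, (n i : ℝ) * Real.log (L i).A : ℝ) : ℂ)) *
      (Pf s ^ a0 * Qf s ^ b0)) * ∏ i, (L i).y s ^ (-n i).toNat =
      ∏ i, (L i).y s ^ (n i).toNat := by
  rw [prod_y L c0 c1 h0 h1, prod_y L c0 c1 h0 h1, ← nat_split n c0 a0 ha, ← nat_split n c1 b0 hb,
    pow_add, pow_add]
  have e1 : (∏ i, (L i).ε ^ n i) * ∏ i, (L i).ε ^ (-n i).toNat = ∏ i, (L i).ε ^ (n i).toNat := by
    rw [← Finset.prod_mul_distrib]
    refine Finset.prod_congr rfl fun i _ => zpow_split ?_ _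
    intro h
    have := (L i).norm_ε
    rw [h, norm_zero] at this
    exact zero_ne_one this
  have e2 : cexp ((s - 1 / 2) * ((∑ i, (n i : ℝ) * Real.log (L i).A : ℝ) : ℂ)) *
      cexp ((s - 1 / 2) * ((∑ i, (((-n i).toNat : ℕ) : ℝ) * Real.log (L i).A : ℝ) : ℂ)) =
      cexp ((s - 1 / 2) * ((∑ i, (((n i).toNat : ℕ) : ℝ) * Real.log (L i).A : ℝ) : ℂ)) := by
    rw [← Complex.exp_add, ← mul_add, ← Complex.ofReal_add, ← Finset.sum_add_distrib]
    congr 3
    refine Finset.sum_congr rfl fun i _ => ?_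
    rw [← add_mul]
    congr 1
    exact_mod_cast int_split (n i)
  rw [← e1, ← e2]
  ring

/-- numerator or denominator -/
noncomputable def PP' (x : Fin N → ℕ) (s : ℂ) : ℂ := ∏ i, (L i).num s ^ x i

theorem PP'_diff (x : Fin N → ℕ) {s : ℂ} (hs : 0 < s.im) : DifferentiableAt ℂ (PP' L x) s := by
  unfold PP'
  exact DifferentiableAt.fun_finsetProd fun i _ => ((L i).diff s hs).1.fun_pow _

theorem PP'_ne (x : Fin N → ℕ) {s : ℂ} (hs : 1 < s.re) (him : 0 < s.im) : PP' L x s ≠ 0 :=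
  Finset.prod_ne_zero_iff.2 fun i _ => pow_ne_zero _ (Pool.Agent.H62.DL.num_ne (L i) s hs him)

theorem PP'_conj (hden : ∀ i, (L i).den = fun _ => 1) (x : Fin N → ℕ) {s : ℂ} (hs : 0 < s.im) :
    (starRingEnd ℂ) (PP' L x (1 - (starRingEnd ℂ) s)) = PP' L x s * ∏ i, (L i).y s ^ x i := by
  unfold PP'
  rw [← Finset.prod_mul_distrib]
  simp only [map_prod, map_pow]
  refine Finset.prod_congr rfl fun i _ => ?_
  rw [conj_num (L i) (hden i) hs, mul_pow]

theorem PP'_pb (x : Fin N → ℕ) : PB (PP' L x) := by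
  have h : ∀ i, PB (L i).num := fun i b => by
    obtain ⟨C, hC, h2⟩ := (L i).growth b
    exact ⟨C, hC, fun s hs him => (h2 s hs him).1⟩
  exact pb_prod Finset.univ (fun i w => (L i).num w ^ x i) fun i => pb_pow (h i) _

theorem num_prod (hden : ∀ i, (L i).den = fun _ => 1) (i : Fin N) {s : ℂ} (hs : 1 < s.re)
    (him : 0 < s.im) : (L i).num s = ∏ j, ∑' m : ℕ, (L i).h j m * (m : ℂ) ^ (-s) := by
  have h := (L i).series s hs him
  rw [hden, one_mul] at h
  exact h

theorem PP'_ge (hden : ∀ i, (L i).den = fun _ => 1) (x : Fin N → ℕ) :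
    ∃ c : ℝ, 0 < c ∧ ∀ s : ℂ, 2 ≤ s.re → 1 ≤ s.im → c ≤ ‖PP' L x s‖ := by
  refine ⟨∏ i, ((1 / 2 : ℝ) ^ (L i).n) ^ x i,
    Finset.prod_pos fun i _ => by positivity, fun s hs him => ?_⟩
  unfold PP'
  rw [norm_prod]
  refine Finset.prod_le_prod (fun i _ => by positivity) fun i _ => ?_
  rw [norm_pow]
  refine pow_le_pow_left₀ (by positivity) ?_ _
  rw [num_prod L hden i (by linarith) (by linarith), norm_prod]
  have e : ((1 : ℝ) / 2) ^ (L i).n = ∏ _k : Fin (L i).n, (1 : ℝ) / 2 := by simp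
  rw [e]
  exact Finset.prod_le_prod (fun _ _ => by norm_num) fun k _ =>
    Pool.Agent.H62.DL.ser_ge _ ((L i).h_zero k) ((L i).h_one k) ((L i).h_mul k)
      ((L i).h_le k) _ hs

/-- the Euler product -/
theorem euler_eq (hLP : T_LP) (hden : ∀ i, (L i).den = fun _ => 1) (d : ℕ)
    (h : Fin d → ℕ → ℂ) (hz : ∀ j, h j 0 = 0) (ho : ∀ j, h j 1 = 1)
    (hm : ∀ j a b, h j (a * b) = h j a * h j b) (hle : ∀ j a, ‖h j a‖ ≤ 1)
    (hps : ∀ (p : Nat.Primes) (r : ℕ), 1 ≤ r →
      ∑ j, h j p ^ r = ∑ i, (n i : ℂ) * ∑ j, (L i).h j p ^ r) {z : ℂ} (hz1 : 1 < z.re)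
    (him : 0 < z.im) :
    ∏ j, ∑' m : ℕ, h j m * (m : ℂ) ^ (-z) = ∏ i, (L i).num z ^ n i := by
  classical
  have hL1 : HasProd (fun p : Nat.Primes => ∏ j, (1 - h j p * ((p : ℕ) : ℂ) ^ (-z))⁻¹)
      (∏ j, ∑' m : ℕ, h j m * (m : ℂ) ^ (-z)) := hasProd_prod fun j _ =>
    Pool.Agent.H11.HK.ser_prod (h j) (hz j) (ho j) (hm j) (hle j) hz1
  have hΛne : ∏ j, ∑' m : ℕ, h j m * (m : ℂ) ^ (-z) ≠ 0 :=
    Finset.prod_ne_zero_iff.mpr fun j _ =>
      Pool.Agent.H11.HK.ser_ne (h j) (hz j) (ho j) (hm j) (hle j) hz1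
  have hne : ∀ i, (L i).num z ≠ 0 := fun i => Pool.Agent.H62.DL.num_ne (L i) z hz1 him
  have hζ1 : ∀ i, HasProd (fun p : Nat.Primes =>
      ∏ j, (1 - (L i).h j p * ((p : ℕ) : ℂ) ^ (-z))⁻¹) ((L i).num z) := by
    intro i
    rw [num_prod L hden i hz1 him]
    exact hasProd_prod fun j _ => Pool.Agent.H11.HK.ser_prod ((L i).h j) ((L i).h_zero j)
      ((L i).h_one j) ((L i).h_mul j) ((L i).h_le j) hz1
  have hfac : ∀ p : Nat.Primes,
      (∏ j, (1 - h j p * ((p : ℕ) : ℂ) ^ (-z))⁻¹) ^ (1 : ℤ) *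
        ∏ i, (∏ j, (1 - (L i).h j p * ((p : ℕ) : ℂ) ^ (-z))⁻¹) ^ (-(n i)) = 1 := by
    intro p
    have hX : ‖((p : ℕ) : ℂ) ^ (-z)‖ < 1 := by
      rw [norm_natCast_cpow_of_pos p.2.pos, neg_re]
      exact Real.rpow_lt_one_of_one_lt_of_neg (by exact_mod_cast p.2.one_lt) (by linarith)
    have := hLP (Option (Fin N)) (fun i => i.elim d fun i => (L i).n)
      (fun i => i.elim (1 : ℤ) fun i => -(n i))
      (fun i => match i with
        | none => fun j => h j p
        | some i => fun j => (L i).h j p)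
      (fun i j => by
        match i with
        | none => exact hle j p
        | some i => exact (L i).h_le j p)
      (fun r hr => by
        rw [Fintype.sum_option]
        have h1 := hps p r hr
        simp only [Option.elim_none, Option.elim_some, Int.cast_one, one_mul, Int.cast_neg,
          neg_mul, Finset.sum_neg_distrib]
        rw [← sub_eq_add_neg, sub_eq_zero]
        exact h1) _ hX
    rw [Fintype.prod_option] at this
    exact this
  have hA : HasProd (fun p : Nat.Primes =>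
      (∏ j, (1 - h j p * ((p : ℕ) : ℂ) ^ (-z))⁻¹) ^ (1 : ℤ) *
        ∏ i, (∏ j, (1 - (L i).h j p * ((p : ℕ) : ℂ) ^ (-z))⁻¹) ^ (-(n i)))
      ((∏ j, ∑' m : ℕ, h j m * (m : ℂ) ^ (-z)) ^ (1 : ℤ) * ∏ i, (L i).num z ^ (-(n i))) :=
    HasProd.mul (Pool.Agent.H11.HK.hasProd_zpow hL1 hΛne _)
      (hasProd_prod fun i _ => Pool.Agent.H11.HK.hasProd_zpow (hζ1 i) (hne i) _)
  have hB : HasProd (fun _ : Nat.Primes => (1:ℂ)) 1 := hasProd_one
  simp_rw [hfac] at hA
  have hC := hA.unique hB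
  simp_rw [zpow_neg] at hC
  rw [Finset.prod_inv_distrib, zpow_one] at hC
  have hD : ∏ i, (L i).num z ^ (n i) ≠ 0 :=
    Finset.prod_ne_zero_iff.mpr fun i _ => zpow_ne_zero _ (hne i)
  field_simp at hC
  exact hC

end family

theorem pf_FIN : T_CM0 → T_CM2 → T_CM3 → T_LKc → T_LP → T_PW → DL.T_AL → DL.T_AH → T_ALL := by
  classical
  intro hCM0 hCM2 hCM3 hLK hLP hPW hAL _ R Λ hArt
  obtain ⟨D⟩ := hCM0 R
  obtain ⟨a0, b0, hab, ha0, hb0⟩ := hCM2 R D
  have hcm3 := hCM3 R D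
  choose L hLn hden hnum hκ0 hκ1 _ hpow using fun i => hLK (FF R (D.H i)) (D.χ i)
  -- the Artin coefficients
  choose α hα1 hα2 using fun p => hAL R p
  obtain ⟨a, ha⟩ : ∃ a : Fin R.dim → ℕ → ℂ,
      a = fun j p => if h : p.Prime then α ⟨p, h⟩ j else 0 := ⟨_, rfl⟩
  have ha1 : ∀ j p, ‖a j p‖ ≤ 1 := by
    intro j p
    rw [ha]
    dsimp only
    split_ifs with h
    · exact hα1 _ _
    · simp
  obtain ⟨h, hh⟩ : ∃ h : Fin R.dim → ℕ → ℂ, h = fun j => Pool.Agent.H48.DL.hf (a j) := ⟨_, rfl⟩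
  have h0 : ∀ j, h j 0 = 0 := fun j => by rw [hh]; exact Pool.Agent.H48.DL.hf_zero _
  have h1 : ∀ j, h j 1 = 1 := fun j => by rw [hh]; exact Pool.Agent.H48.DL.hf_one _
  have hm : ∀ j x y, h j (x * y) = h j x * h j y := fun j x y => by
    rw [hh]; exact Pool.Agent.H48.DL.hf_mul _ _ _
  have hle : ∀ j x, ‖h j x‖ ≤ 1 := fun j x => by
    rw [hh]; exact Pool.Agent.H48.DL.hf_le _ (ha1 j) _
  have hp : ∀ j (p : Nat.Primes), h j p = α p j := fun j p => by
    rw [hh]
    dsimp only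
    rw [Pool.Agent.H48.DL.hf_prime _ p.2, ha]
    dsimp only
    rw [dif_pos p.2]
    rfl
  have htr : ∀ (p : Nat.Primes) (k : ℕ), 1 ≤ k →
      ∑ j, h j p ^ k = LinearMap.trace ℂ R.V (R.fr p ^ k) := by
    intro p k hk
    rw [hPW R.V (R.fr p) (α p) (hα2 p) k hk]
    exact Finset.sum_congr rfl fun j _ => by rw [hp]
  have hps : ∀ (p : Nat.Primes) (r : ℕ), 1 ≤ r →
      ∑ j, h j p ^ r = ∑ i, (D.n i : ℂ) * ∑ j, (L i).h j p ^ r := by
    intro p r hr
    rw [htr p r hr, hcm3 p r hr]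
    exact Finset.sum_congr rfl fun i _ => by rw [hpow i p r p.2 hr]
  -- the value of `Λ`
  have hΛz : ∀ z : ℂ, 1 < z.re → Λ z = ∏ j, ∑' m : ℕ, h j m * (m : ℂ) ^ (-z) := by
    intro z hz1
    have hL1 : HasProd (fun p : Nat.Primes => ∏ j, (1 - h j p * ((p : ℕ) : ℂ) ^ (-z))⁻¹)
        (∏ j, ∑' m : ℕ, h j m * (m : ℂ) ^ (-z)) := hasProd_prod fun j _ =>
      Pool.Agent.H11.HK.ser_prod (h j) (h0 j) (h1 j) (hm j) (hle j) hz1
    have hL2 : (fun p : Nat.Primes => ∏ j, (1 - h j p * ((p : ℕ) : ℂ) ^ (-z))⁻¹) =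
        fun p => R.euler p z := by
      funext p
      unfold DL.ArtinRep.euler
      rw [hα2, Finset.prod_inv_distrib]
      congr 1
      exact Finset.prod_congr rfl fun j _ => by rw [hp]
    rw [hL2] at hL1
    exact (hArt.2 z hz1).unique hL1
  have hΛd : ∀ s : ℂ, 1 < s.re → DifferentiableAt ℂ Λ s := fun s hs => by
    have h2 : DifferentiableAt ℂ (fun w => ∏ j, ∑' m : ℕ, h j m * (m : ℂ) ^ (-w)) s :=
      DifferentiableAt.fun_finsetProd fun j _ => ser_differentiableAt (h j) (h0 j) (hle j) hs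
    refine h2.congr_of_eventuallyEq ?_
    filter_upwards [(isOpen_lt continuous_const Complex.continuous_re).mem_nhds hs] with w hw
    exact hΛz w hw
  have hΛB : ∀ s : ℂ, 1 < s.re → 0 < s.im →
      Λ s * PP' L (fun i => (-D.n i).toNat) s = PP' L (fun i => (D.n i).toNat) s := by
    intro s hs him
    rw [hΛz s hs, euler_eq L D.n hLP hden R.dim h h0 h1 hm hle hps hs him]
    unfold PP'
    rw [← Finset.prod_mul_distrib]
    exact Finset.prod_congr rfl fun i _ =>
      zpow_split (Pool.Agent.H62.DL.num_ne (L i) s hs him) (D.n i)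
  obtain ⟨E, hEd, hE1, hEN, hEo⟩ := Pool.Agent.H11.HK.rt.2 1 Λ
    (PP' L (fun i => (D.n i).toNat)) (PP' L (fun i => (-D.n i).toNat)) le_rfl hArt.1
    (fun s hs => PP'_diff L _ hs) (fun s hs => PP'_diff L _ hs)
    (fun s hs him => ⟨hΛd s hs, PP'_ne L _ hs him, by rw [pow_one]; exact hΛB s hs him⟩)
  have hEA : ∀ s : ℂ, 0 < s.im → E s = PP' L (fun i => (D.n i).toNat) s := by
    intro s hs
    have := hEN s hs
    rw [pow_one, Nat.sub_self, pow_zero, mul_one] at this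
    exact this
  have hpbE : PB E := by
    intro b
    obtain ⟨C, hC, h2⟩ := PP'_pb L (fun i => (D.n i).toNat) b
    exact ⟨C, hC, fun s hs him => by rw [hEA s (by linarith)]; exact h2 s hs him⟩
  have hpbB : PB (PP' L (fun i => (-D.n i).toNat)) := PP'_pb L _
  have hε : ‖∏ i, (L i).ε ^ D.n i‖ = 1 := by
    rw [norm_prod]
    exact Finset.prod_eq_one fun i _ => by rw [norm_zpow, (L i).norm_ε, one_zpow]
  refine ⟨{
    n := R.dim
    h := h
    h_zero := h0
    h_one := h1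
    h_mul := hm
    h_le := hle
    κ := fun j => if (j : ℕ) < a0 then 0 else 1
    κ_mem := fun j => by
      split_ifs
      · exact Or.inl rfl
      · exact Or.inr rfl
    A := Real.exp (∑ i, (D.n i : ℝ) * Real.log (L i).A)
    A_pos := Real.exp_pos _
    ε := ∏ i, (L i).ε ^ D.n i
    norm_ε := hε
    num := E
    den := PP' L (fun i => (-D.n i).toNat)
    diff := fun s hs => ⟨hEd s hs, PP'_diff L _ hs⟩
    growth := fun b => by
      obtain ⟨C, hC, h2⟩ := hpbE b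
      obtain ⟨D', hD, h3⟩ := hpbB b
      refine ⟨max C D', lt_max_of_lt_left hC, fun s hs him => ?_⟩
      have him0 : 0 < s.im := by linarith
      have key : ∀ X : ℝ, 0 < X → X ≤ max C D' →
          X * s.im ^ X ≤ max C D' * s.im ^ (max C D') := by
        intro X hX hXm
        have q1 : s.im ^ X ≤ s.im ^ (max C D') := Real.rpow_le_rpow_of_exponent_le him hXm
        have q3 : 0 ≤ s.im ^ X := Real.rpow_nonneg him0.le _
        gcongr
      exact ⟨(h2 s hs him).trans (key C hC (le_max_left _ _)),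
        (h3 s hs him).trans (key D' hD (le_max_right _ _))⟩
    den_ne := fun s hs him => PP'_ne L _ hs him
    den_ge := PP'_ge L hden _
    series := fun s hs him => by
      rw [hE1 s hs him, hΛz s hs, mul_comm]
    fe := fun s hs => by
      have him : 0 < (1 - (starRingEnd ℂ) s).im := by simpa using hs
      have h3 : ∏ j : Fin R.dim, Gammaℂ s *
          Complex.cos (Real.pi * (s - ((if (j : ℕ) < a0 then 0 else 1 : ℝ) : ℂ)) / 2) =
          Pf s ^ a0 * Qf s ^ b0 := by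
        have h4 := Pool.Agent.H48.DL.prod_split (n := R.dim) hab (Pf s) (Qf s)
        rw [← h4]
        refine Finset.prod_congr rfl fun j _ => ?_
        have h5 := factor s (if (j : ℕ) < a0 then 0 else 1) (by
          split_ifs
          · exact Or.inl rfl
          · exact Or.inr rfl)
        rw [h5]
        by_cases hj : (j : ℕ) < a0
        · rw [if_pos hj, if_pos rfl, if_pos hj]
        · rw [if_neg hj, if_neg one_ne_zero, if_neg hj]
      have h6 := yy L D.n _ _ hκ0 hκ1 a0 b0 ha0 hb0 s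
      rw [h3, Real.log_exp, hEA s hs, hEA _ him, PP'_conj L hden _ hs, PP'_conj L hden _ hs,
        ← h6]
      ring }, rfl, htr, fun z hz => ?_⟩
  have h2I : 0 < (2 + I : ℂ).im := by simp
  have h2I' : 1 < (2 + I : ℂ).re := by simp
  refine ⟨order_ne_top_of_ne (fun s hs => PP'_diff L _ hs) h2I (PP'_ne L _ h2I' h2I) hz,
    order_ne_top_of_ne hEd h2I ?_ hz, hEo z hz⟩
  rw [hEA _ h2I]
  exact PP'_ne L _ h2I' h2I

end Pool.Agent.H69.RC
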