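import Pool.Agent.H28.RC.Targets2

/-!
# Power sums of a twist (SPT)
-/

set_option autoImplicit false

open NumberField NumberField.InfinitePlace Complex

namespace Pool.Agent.H69.RC

open Pool.Agent.H28.RC Pool.Agent.H25.HK Pool.Agent.H25

theorem pf_SPT : T_SPT := by
  intro K _ _ χ χ' q _ θ hχ p k hp hpq hk
  have hpZ : (Ideal.span {(p : ℤ)}) ≠ ⊥ := by
    rw [Ne, Ideal.span_singleton_eq_bot]
    exact_mod_cast hp.ne_zero
  have hpm : (Ideal.span {(p : ℤ)}).IsMaximal :=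
    PrincipalIdealRing.isMaximal_of_irreducible (Nat.prime_iff_prime_int.1 hp).irreducible
  have hfin : (Ideal.primesOver (Ideal.span {(p : ℤ)}) (𝓞 K)).Finite :=
    IsDedekindDomain.primesOver_finite _ _
  unfold spc
  rw [mul_finsum_mem' _ _ hfin]
  refine finsum_mem_congr rfl fun P hP => ?_
  have hPp : P.IsPrime := hP.1
  have hPo : P.LiesOver (Ideal.span {(p : ℤ)}) := hP.2
  have hmem : (p : 𝓞 K) ∈ P := by
    have h1 : ((p : ℤ)) ∈ P.comap (algebraMap ℤ (𝓞 K)) := by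
      have h2 := hPo.over
      have h3 : (p : ℤ) ∈ Ideal.span {(p : ℤ)} := Ideal.mem_span_singleton_self _
      rw [h2] at h3
      exact h3
    have h4 : algebraMap ℤ (𝓞 K) (p : ℤ) ∈ P := h1
    simpa using h4
  have hP0 : P ≠ ⊥ := by
    rintro rfl
    rw [Ideal.mem_bot] at hmem
    have : (p : ℕ) = 0 := by exact_mod_cast hmem
    exact hp.ne_zero this
  have hPq : P ⊔ Ideal.span {(q : 𝓞 K)} = ⊤ := by
    rw [Ideal.eq_top_iff_one]
    have hc : IsCoprime ((p : ℕ) : ℤ) ((q : ℕ) : ℤ) := Nat.isCoprime_iff_coprime.2 hpq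
    obtain ⟨u, v, huv⟩ := hc
    have h1 : (1 : 𝓞 K) = (u : 𝓞 K) * (p : 𝓞 K) + (v : 𝓞 K) * (q : 𝓞 K) := by
      have h2 : ((u * (p : ℤ) + v * (q : ℤ) : ℤ) : 𝓞 K) = ((1 : ℤ) : 𝓞 K) := by rw [huv]
      push_cast at h2
      exact h2.symm
    rw [h1]
    exact Ideal.add_mem _ (Ideal.mem_sup_left (Ideal.mul_mem_left _ _ hmem))
      (Ideal.mem_sup_right (Ideal.mul_mem_left _ _ (Ideal.mem_span_singleton_self _)))
  have hN : Ideal.absNorm P = p ^ P.inertiaDeg ℤ := by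
    have h1 := Ideal.absNorm_pow_inertiaDeg (Ideal.span {(p : ℤ)}) P
    rw [Ideal.absNorm_span_singleton] at h1
    simp only [Algebra.norm_self, MonoidHom.id_apply, Int.natAbs_natCast] at h1
    exact h1.symm
  by_cases hd : P.inertiaDeg ℤ ∣ k
  · rw [if_pos hd, if_pos hd, hχ P hPp hP0 hPq, hN, mul_pow, Nat.cast_pow, map_pow, ← pow_mul,
      Nat.mul_div_cancel' hd]
    ring
  · rw [if_neg hd, if_neg hd, mul_zero]

end Pool.Agent.H69.RC
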